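import Pool.Agent.PRT.StmtsC

/-!
# PRT, row GLF: the lift `g = F^[q] - p`
-/

set_option autoImplicit false

namespace Pool.Agent.PRT.H94

open Set MeasureTheory
open scoped ContDiff

theorem glf_sm {F : E → E} (h : ContDiff ℝ ∞ F) (n : ℕ) : ContDiff ℝ ∞ (F^[n]) := by
  induction n with
  | zero => exact contDiff_id
  | succ n ih =>
    rw [Function.iterate_succ']
    exact h.comp ih

theorem glf_eqv {F : E → E} (h : Eqv F) (n : ℕ) : Eqv (F^[n]) := by
  induction n with
  | zero =>
    intro a b z
    rfl
  | succ n ih =>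
    intro a b z
    rw [Function.iterate_succ_apply', Function.iterate_succ_apply', ih, h]

theorem glf_det {F : E → E} (h : ContDiff ℝ ∞ F) (hd : ∀ z, (fderiv ℝ F z).det = 1) (n : ℕ) :
    ∀ z, (fderiv ℝ (F^[n]) z).det = 1 := by
  induction n with
  | zero =>
    intro z
    rw [Function.iterate_zero, fderiv_id]
    exact LinearMap.det_id
  | succ n ih =>
    intro z
    rw [Function.iterate_succ']
    have h1 : DifferentiableAt ℝ F (F^[n] z) := (h.differentiable (by simp)).differentiableAt
    have h2 : DifferentiableAt ℝ (F^[n]) z :=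
      ((glf_sm h n).differentiable (by simp)).differentiableAt
    rw [fderiv_comp z h1 h2]
    have h3 : ((fderiv ℝ F (F^[n] z)).comp (fderiv ℝ (F^[n]) z)).det =
        (fderiv ℝ F (F^[n] z)).det * (fderiv ℝ (F^[n]) z).det :=
      LinearMap.det_comp _ _
    rw [h3, hd, ih, one_mul]

theorem glf_iv_smul (j : ℕ) (a b : ℤ) : (j : ℝ) • iv a b = iv (j * a) (j * b) := by
  refine Prod.ext ?_ ?_
  · simp [iv]
  · simp [iv]

theorem glf_neg_iv (a b : ℤ) : - iv a b = iv (-a) (-b) := by
  refine Prod.ext ?_ ?_
  · simp [iv]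
  · simp [iv]

/-- **GLF**: the lift `g = F^[q] - p`. -/
theorem glf : GlfStmt := by
  intro F w C q p l N R hG
  obtain ⟨a, b, rfl⟩ := hG.pz
  have hL := hG.lf
  have sF := glf_sm hL.sm q
  have eF : ∀ n, Eqv (F^[n]) := glf_eqv hL.eqv
  have hit : ∀ (j : ℕ) (z : E), (fun z => F^[q] z - iv a b)^[j] z =
      F^[q * j] z - (j : ℝ) • iv a b := by
    intro j
    induction j with
    | zero =>
      intro z
      simp
    | succ j ih =>
      intro z
      rw [Function.iterate_succ_apply', ih]
      show F^[q] (F^[q * j] z - (j : ℝ) • iv a b) - iv a b = _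
      rw [glf_iv_smul, sub_eq_add_neg (F^[q * j] z), glf_neg_iv, eF q,
        ← Function.iterate_add_apply, ← glf_neg_iv, ← glf_iv_smul,
        show q + q * j = q * (j + 1) by ring]
      push_cast
      rw [add_smul, one_smul]
      abel
  have hfd : ∀ z, fderiv ℝ (fun z => F^[q] z - iv a b) z = fderiv ℝ (F^[q]) z := by
    intro z
    exact fderiv_sub_const _
  refine ⟨⟨sF.sub contDiff_const, ?_, ?_, ?_, ?_⟩, hit, ?_⟩
  · obtain ⟨G, sG, h1, h2⟩ := hL.inv
    refine ⟨fun z => G^[q] (z + iv a b), (glf_sm sG q).comp (contDiff_id.add contDiff_const),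
      fun z => ?_, fun z => ?_⟩
    · show G^[q] (F^[q] z - iv a b + iv a b) = z
      rw [sub_add_cancel]
      exact (Function.LeftInverse.iterate (show Function.LeftInverse G F from h1) q) z
    · show F^[q] (G^[q] (z + iv a b)) - iv a b = z
      rw [(Function.LeftInverse.iterate (show Function.LeftInverse F G from h2) q) (z + iv a b),
        add_sub_cancel_right]
  · intro c d z
    show F^[q] (z + iv c d) - iv a b = F^[q] z - iv a b + iv c d
    rw [eF q]
    abel
  · intro z
    rw [hfd]
    exact glf_det hL.sm hL.det q z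
  · intro n z
    rw [hit]
    have h := hL.dev (q * n) z
    have e : F^[q * n] z - (n : ℝ) • iv a b - z - (n : ℝ) • ((q : ℝ) • w - iv a b) =
        F^[q * n] z - z - ((q * n : ℕ) : ℝ) • w := by
      rw [smul_sub, smul_smul]
      push_cast
      rw [mul_comm (n : ℝ) (q : ℝ)]
      abel
    rw [e]
    exact h
  · have h := hG.bd q le_rfl
    intro i h1 hi z
    have hfun : iteratedFDeriv ℝ i (fun z => F^[q] z - iv a b) z = iteratedFDeriv ℝ i (F^[q]) z := by
      have h3 : (fun z => F^[q] z - iv a b) = F^[q] - fun _ => iv a b := rfl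
      have h4 : ContDiffAt ℝ i (F^[q]) z := (sF.of_le (by exact_mod_cast le_top)).contDiffAt
      have h5 : ContDiffAt ℝ i (fun _ : E => iv a b) z := contDiffAt_const
      rw [h3, iteratedFDeriv_sub_apply h4 h5, iteratedFDeriv_const_of_ne (by omega)]
      simp
    rw [hfun]
    exact h i h1 hi z

end Pool.Agent.PRT.H94
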