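import Pool.Agent.PRT.StmtsB

/-!
# PRT, row INB: inverse maps
-/

set_option autoImplicit false

namespace Pool.Agent.PRT.H94

open Set MeasureTheory
open scoped ContDiff

/-- the first column of the adjugate matrix -/
noncomputable def pL : (E →L[ℝ] E) →L[ℝ] E :=
  ((ContinuousLinearMap.snd ℝ ℝ ℝ).comp (ContinuousLinearMap.apply ℝ E ((0, 1) : E))).prod
    (-((ContinuousLinearMap.snd ℝ ℝ ℝ).comp (ContinuousLinearMap.apply ℝ E ((1, 0) : E))))

/-- the second column of the adjugate matrix -/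
noncomputable def qL : (E →L[ℝ] E) →L[ℝ] E :=
  (-((ContinuousLinearMap.fst ℝ ℝ ℝ).comp (ContinuousLinearMap.apply ℝ E ((0, 1) : E)))).prod
    ((ContinuousLinearMap.fst ℝ ℝ ℝ).comp (ContinuousLinearMap.apply ℝ E ((1, 0) : E)))

/-- the adjugate -/
noncomputable def adjL : (E →L[ℝ] E) →L[ℝ] (E →L[ℝ] E) :=
  (ContinuousLinearMap.smulRightL ℝ E E (ContinuousLinearMap.fst ℝ ℝ ℝ)).comp pL +
    (ContinuousLinearMap.smulRightL ℝ E E (ContinuousLinearMap.snd ℝ ℝ ℝ)).comp qL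

theorem adjL_apply (A : E →L[ℝ] E) (u : E) : adjL A u =
    (u.1 * (A (0, 1)).2 - u.2 * (A (0, 1)).1, -(u.1 * (A (1, 0)).2) + u.2 * (A (1, 0)).1) := by
  simp [adjL, pL, qL, sub_eq_add_neg]

theorem map_eq (A : E →L[ℝ] E) (a : E) : A a = a.1 • A (1, 0) + a.2 • A (0, 1) := by
  rw [← map_smul, ← map_smul, ← map_add]
  congr 1
  ext <;> simp

theorem adjL_mul (A : E →L[ℝ] E) (u : E) : A (adjL A u) = A.det • u := by
  rw [det_eq, map_eq A (adjL A u), adjL_apply]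
  unfold cr
  ext
  · simp only [Prod.fst_add, Prod.smul_fst, smul_eq_mul]
    ring
  · simp only [Prod.snd_add, Prod.smul_snd, smul_eq_mul]
    ring

theorem fderiv_inv {U W : E → E} (sU : ContDiff ℝ ∞ U) (sW : ContDiff ℝ ∞ W)
    (hWU : ∀ z, W (U z) = z) (hUW : ∀ z, U (W z) = z) (hdet : ∀ z, 1 / 2 ≤ (fderiv ℝ U z).det)
    (y : E) : fderiv ℝ W y = ((fderiv ℝ U (W y)).det)⁻¹ • adjL (fderiv ℝ U (W y)) := by
  have h1 : DifferentiableAt ℝ U (W y) := (sU.differentiable (by simp)).differentiableAt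
  have h2 : DifferentiableAt ℝ W (U (W y)) := (sW.differentiable (by simp)).differentiableAt
  have e : (fun z => W (U z)) = fun z => z := funext hWU
  have h3 : fderiv ℝ (fun z => W (U z)) (W y) = (fderiv ℝ W (U (W y))).comp (fderiv ℝ U (W y)) :=
    fderiv_comp (W y) h2 h1
  rw [e, hUW] at h3
  have h4 : ∀ u, fderiv ℝ W y (fderiv ℝ U (W y) u) = u := by
    intro u
    have h5 := congrArg (fun T : E →L[ℝ] E => T u) h3
    simp only [fderiv_fun_id, ContinuousLinearMap.comp_apply, ContinuousLinearMap.id_apply] at h5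
    exact h5.symm
  have hd : (fderiv ℝ U (W y)).det ≠ 0 := by
    have := hdet (W y)
    intro h
    rw [h] at this
    norm_num at this
  refine ContinuousLinearMap.ext fun u => ?_
  have h6 := h4 (((fderiv ℝ U (W y)).det)⁻¹ • adjL (fderiv ℝ U (W y)) u)
  rw [map_smul, adjL_mul, smul_smul, inv_mul_cancel₀ hd, one_smul] at h6
  exact h6

/-- **INB**: inverse maps. -/
theorem inb (h1 : RcpStmt) (h2 : DtbStmt) : InbStmt := by
  intro k
  induction k with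
  | zero =>
    refine ⟨0, fun U W D _ _ _ _ _ _ _ i hi hi' z => ?_⟩
    omega
  | succ k ih =>
    obtain ⟨c, hc⟩ := ih
    obtain ⟨c1, hc1⟩ := h2 k
    obtain ⟨c2, hc2⟩ := h1 k
    obtain ⟨a, ha⟩ := exists_nat_ge ‖adjL‖
    obtain ⟨C0, hC0⟩ : ∃ C0 : ℕ, C0 = Nat.factorial k * (2 ^ k * (c2 * (c1 + 1) ^ c2) * a) *
      (c + 1) ^ k := ⟨_, rfl⟩
    obtain ⟨N, hN⟩ : ∃ N : ℕ, N = 2 * c2 + 1 + c * k := ⟨_, rfl⟩
    refine ⟨C0 + N, fun U W D sU sW hWU hUW hD hdet hU => ?_⟩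
    have hD0 : 0 < D := by linarith
    have sA : ContDiff ℝ ∞ (fderiv ℝ U) := sU.fderiv_right (by simp)
    have bA : Bd k D (fderiv ℝ U) := bm_succ.1 hU
    have b0 : Bd k 0 (fun z => fderiv ℝ U z - fderiv ℝ U z) := by
      have := bd_const (V := E →L[ℝ] E) k 0
      simpa using this
    obtain ⟨sdet, bdet, -⟩ := hc1 (fderiv ℝ U) (fderiv ℝ U) D 0 sA sA hD bA bA b0
    have hD2 : (1 : ℝ) ≤ D ^ 2 := one_le_pow₀ hD
    have hc1' : (0 : ℝ) ≤ c1 := Nat.cast_nonneg _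
    have hK1 : (1 : ℝ) ≤ (c1 + 1) * D ^ 2 := by nlinarith
    obtain ⟨sinv, binv⟩ := hc2 (fun z => (fderiv ℝ U z).det) ((c1 + 1) * D ^ 2) sdet hK1 hdet
      (bdet.mono le_rfl (by nlinarith))
    have badj : Bd k (a * D) (fun z => adjL (fderiv ℝ U z)) :=
      (bA.clm sA adjL).mono le_rfl (mul_le_mul_of_nonneg_right ha hD0.le)
    have sadj : ContDiff ℝ ∞ (fun z => adjL (fderiv ℝ U z)) := adjL.contDiff.comp sA
    have bM := Bd.bil (ContinuousLinearMap.lsmul ℝ ℝ : ℝ →L[ℝ] (E →L[ℝ] E) →L[ℝ] (E →L[ℝ] E))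
      ContinuousLinearMap.opNorm_lsmul_le binv badj sinv sadj
    have sM : ContDiff ℝ ∞ (fun z => ContinuousLinearMap.lsmul ℝ ℝ ((fderiv ℝ U z).det)⁻¹
        (adjL (fderiv ℝ U z))) := sinv.smul sadj
    have hcn : (0 : ℝ) ≤ c := Nat.cast_nonneg _
    have bW : Bm k ((c + 1) * D ^ c) W :=
      (hc U W D sU sW hWU hUW hD hdet (hU.mono (Nat.le_succ _) le_rfl)).mono le_rfl (by
        have : 0 < D ^ c := by positivity
        nlinarith)
    have hW1 : (1 : ℝ) ≤ (c + 1) * D ^ c := by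
      have : 1 ≤ D ^ c := one_le_pow₀ hD
      nlinarith
    have bC := bM.comp bW hW1 sM sW
    have eW : fderiv ℝ W = fun y => ContinuousLinearMap.lsmul ℝ ℝ ((fderiv ℝ U (W y)).det)⁻¹
        (adjL (fderiv ℝ U (W y))) := by
      funext y
      rw [fderiv_inv sU sW hWU hUW hdet y]
      rfl
    rw [bm_succ, eW]
    refine bC.mono le_rfl ?_
    have e1 : ((Nat.factorial k : ℕ) : ℝ) * (2 ^ k * (c2 * ((c1 + 1) * D ^ 2) ^ c2) * (a * D)) *
        ((c + 1) * D ^ c) ^ k = (C0 : ℝ) * D ^ N := by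
      rw [hC0, hN]
      push_cast
      rw [mul_pow, mul_pow, ← pow_mul, ← pow_mul, pow_add, pow_add, pow_one]
      ring
    rw [e1]
    have h3 : D ^ N ≤ D ^ (C0 + N) := pow_le_pow_right₀ hD (Nat.le_add_left _ _)
    have h4 : (C0 : ℝ) ≤ ((C0 + N : ℕ) : ℝ) := by exact_mod_cast Nat.le_add_right _ _
    have h5 : (0 : ℝ) ≤ C0 := Nat.cast_nonneg _
    have h6 : 0 ≤ D ^ N := by positivity
    exact mul_le_mul h4 h3 h6 (by positivity)

end Pool.Agent.PRT.H94
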